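import Pool.Agent.Lib.MP_7af17a_al.Orbit2

/-!
# MP_7af17a_al: bounded orbits and monoliths, groups whose finite quotients are solvable

The definitions of the problem (intervals, convex and gated subgraphs, convex cycles, mediangle graphs,
hyperplanes, transversality, monoliths) are in `Pool.Agent.Lib.MP_7af17a_al.Defs`.
-/

set_option autoImplicit false

namespace Pool.Agent.Results.MP_7af17a_al.SolvableQuotients

open Pool.Agent.Med7a

/-- A group all of whose finite quotients are solvable, acting with bounded orbits on a triangle-free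
(equivalently, bipartite) mediangle graph, stabilises a monolith. -/
theorem result {V G : Type*} [Group G] [MulAction G V] (X : SimpleGraph V)
    (hX : IsMediangle X) (htf : ∀ a b c, X.Adj a b → X.Adj b c → ¬ X.Adj a c)
    (hact : ∀ (g : G) (x y : V), X.Adj (g • x) (g • y) ↔ X.Adj x y)
    (hbounded : ∃ (x : V) (D : ℕ), ∀ g : G, X.dist x (g • x) ≤ D)
    (hG : ∀ N : Subgroup G, ∀ _ : N.Normal, N.FiniteIndex → Group.IsSolvable (G ⧸ N)) :
    ∃ M : Set V, Monolith X M ∧ ∀ g : G, (fun x => g • x) '' M = M := by
  obtain ⟨x, D, hD⟩ := hbounded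
  obtain ⟨M, h1, -, h2⟩ := main_tf ⟨hX, fun a b c h1 h2 h3 => htf a b c h1 h2 h3⟩ hact x D hD hG
  exact ⟨M, h1, h2⟩

end Pool.Agent.Results.MP_7af17a_al.SolvableQuotients
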