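import Pool.Agent.Lib.MP_7af17a_al.Dim

/-!
# MP_7af17a_al: bounded orbits and monoliths, two dimensional mediangle graphs

The definitions of the problem (intervals, convex and gated subgraphs, convex cycles, mediangle graphs,
hyperplanes, transversality, monoliths) are in `Pool.Agent.Lib.MP_7af17a_al.Defs`.
-/

set_option autoImplicit false

namespace Pool.Agent.Results.MP_7af17a_al.TwoDimensional

open Pool.Agent.Med7a

/-- Let a group `G` act with bounded orbits on a triangle-free (equivalently, bipartite) mediangle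
graph `X`, and let `N` be a normal subgroup all of whose finite quotients are solvable (for instance
the trivial subgroup). If there is no chain `M₀ ⊂ M₁ ⊂ M₂ ⊂ M₃` of four monoliths stable under `N`
(for `N = 1`: if `X` has dimension at most two), then `G` stabilises a monolith. -/
theorem result {V G : Type*} [Group G] [MulAction G V] (X : SimpleGraph V)
    (hX : IsMediangle X) (htf : ∀ a b c, X.Adj a b → X.Adj b c → ¬ X.Adj a c)
    (hact : ∀ (g : G) (x y : V), X.Adj (g • x) (g • y) ↔ X.Adj x y)
    (hbounded : ∃ (x : V) (D : ℕ), ∀ g : G, X.dist x (g • x) ≤ D)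
    (N : Subgroup G) (hN : N.Normal)
    (hNs : ∀ K : Subgroup N, ∀ _ : K.Normal, K.FiniteIndex → Group.IsSolvable (N ⧸ K))
    (hchain : ∀ M : Fin 4 → Set V, (∀ i, Monolith X (M i)) →
      (∀ i, ∀ g ∈ N, (fun x => g • x) '' M i = M i) → ¬ StrictMono M) :
    ∃ M : Set V, Monolith X M ∧ ∀ g : G, (fun x => g • x) '' M = M := by
  obtain ⟨x, D, hD⟩ := hbounded
  obtain ⟨M, h1, -, h2⟩ := main_chain ⟨hX, fun a b c h1 h2 h3 => htf a b c h1 h2 h3⟩ hact x D hD
    N hN hNs (fun M₀ M₁ M₂ M₃ a0 a1 a2 a3 b0 b1 b2 b3 c0 c1 c2 => by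
      refine hchain ![M₀, M₁, M₂, M₃] ?_ ?_ ?_
      · intro i
        fin_cases i
        exacts [a0, a1, a2, a3]
      · intro i
        fin_cases i
        exacts [b0, b1, b2, b3]
      · rw [Fin.strictMono_iff_lt_succ]
        intro i
        fin_cases i
        exacts [c0, c1, c2])
  exact ⟨M, h1, h2⟩

end Pool.Agent.Results.MP_7af17a_al.TwoDimensional
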